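import Pool.Agent.Q130.EC.Small

/-!
# MP_3eb4be: edge-connected subgraphs forced by the average edge-connectivity

`f(l) = ⌊l/2⌋ + 1` for every positive integer `l`.  The definitions `DisjPaths`, `lam`,
`avgEdgeConn` and `HasEdgeConnSub` are in `Pool.Agent.Q130.EC.Defs`.
-/

namespace Pool.Agent.Results.MP_3eb4be_co.AverageEdgeConn

open Q130.EC SimpleGraph Finset Pool.Agent.H157R2.Menger

/-- Every finite simple graph of order at least `2` and average edge-connectivity at least `l`
contains a `t`-edge-connected subgraph. -/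
def Forces (l t : ℕ) : Prop :=
  ∀ (V : Type) [Fintype V] (G : SimpleGraph V), 2 ≤ Fintype.card V → (l : ℚ) ≤ avgEdgeConn G →
    HasEdgeConnSub G t

lemma le_avg {V : Type} [Fintype V] [DecidableEq V] (G : SimpleGraph V) (l : ℕ)
    (h2 : 2 ≤ Fintype.card V)
    (h : l * (Fintype.card V * (Fintype.card V - 1)) ≤ ∑ v : V, ∑ w ∈ univ.erase v, lam G v w) :
    (l : ℚ) ≤ avgEdgeConn G := by
  classical
  rw [avgEdgeConn]
  have hn : (2 : ℚ) ≤ Fintype.card V := by exact_mod_cast h2
  rw [le_div_iff₀ (by nlinarith)]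
  have h1 : ((l * (Fintype.card V * (Fintype.card V - 1)) : ℕ) : ℚ) ≤
      ((∑ v : V, ∑ w ∈ univ.erase v, lam G v w : ℕ) : ℚ) := by exact_mod_cast h
  rw [Nat.cast_mul, Nat.cast_mul, Nat.cast_sub (by omega), Nat.cast_one] at h1
  push_cast at h1
  refine le_trans h1 (le_of_eq ?_)
  exact Finset.sum_congr rfl fun v _ => Finset.sum_congr (by ext; simp) fun _ _ => rfl

lemma avg_le {V : Type} [Fintype V] [DecidableEq V] (G : SimpleGraph V) (l : ℕ)
    (h2 : 2 ≤ Fintype.card V) (h : (l : ℚ) ≤ avgEdgeConn G) :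
    l * (Fintype.card V * (Fintype.card V - 1)) ≤ ∑ v : V, ∑ w ∈ univ.erase v, lam G v w := by
  classical
  rw [avgEdgeConn] at h
  have hn : (2 : ℚ) ≤ Fintype.card V := by exact_mod_cast h2
  rw [le_div_iff₀ (by nlinarith)] at h
  have h1 : ((l * (Fintype.card V * (Fintype.card V - 1)) : ℕ) : ℚ) ≤
      ((∑ v : V, ∑ w ∈ univ.erase v, lam G v w : ℕ) : ℚ) := by
    rw [Nat.cast_mul, Nat.cast_mul, Nat.cast_sub (by omega), Nat.cast_one]
    push_cast
    refine le_trans h (le_of_eq ?_)
    exact Finset.sum_congr rfl fun v _ => Finset.sum_congr (by ext; simp) fun _ _ => rfl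
  exact_mod_cast h1

/-- The lower bound. -/
lemma forces (l : ℕ) (hl : 1 ≤ l) : Forces l (l / 2 + 1) := by
  classical
  intro V _ G h2 havg
  have h1 := avg_le G l h2 havg
  have h3 := sum_lam_le G
  refine mader G (l / 2) _ univ rfl ?_
  have h4 : eIn G univ = G.edgeFinset.card := by
    rw [eIn]
    congr 1
    ext e
    simp
  rw [h4, Finset.card_univ]
  obtain ⟨n, hn⟩ : ∃ n, Fintype.card V = n + 2 := ⟨Fintype.card V - 2, by omega⟩
  have h5 := le_trans h1 h3
  rw [hn] at h5 ⊢
  have h6 : l * (n + 2) ≤ 2 * G.edgeFinset.card := by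
    have : (n + 2 - 1) * (l * (n + 2)) ≤ (n + 2 - 1) * (2 * G.edgeFinset.card) := by
      nlinarith [h5]
    exact Nat.le_of_mul_le_mul_left this (by omega)
  have h7 : 2 * (l / 2) ≤ l := Nat.mul_div_le l 2
  have h8 : 2 * (l / 2 * (n + 2 - 1)) ≤ l * (n + 1) := by
    have : n + 2 - 1 = n + 1 := by omega
    rw [this, ← mul_assoc]
    exact Nat.mul_le_mul_right _ h7
  nlinarith

/-- In the complete graph on `t + 1` vertices, `λ(v, w) ≥ t`. -/
lemma lam_complete (t : ℕ) (v w : Fin (t + 1)) (hvw : v ≠ w) :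
    t ≤ lam (pathPower (t + 1) t) v w := by
  classical
  refine le_lam _ hvw _ fun S hv hw => ?_
  refine (win_cut (n := t + 1) (t := t) (S := S) (i := 0) (by omega) (a := v) (b := w)
    (mem_win.2 (by omega)) (mem_win.2 (by omega)) (by simp [hv, hw])).trans ?_
  exact Finset.card_le_card fun e he => ((mem_cutIn _).1 he).1

lemma avg_complete (t : ℕ) (ht : 1 ≤ t) : (t : ℚ) ≤ avgEdgeConn (pathPower (t + 1) t) := by
  classical
  refine le_avg _ _ (by simp; omega) ?_
  calc t * (Fintype.card (Fin (t + 1)) * (Fintype.card (Fin (t + 1)) - 1))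
      = ∑ v : Fin (t + 1), ∑ w ∈ univ.erase v, t := by
        simp only [Finset.sum_const, Finset.card_erase_of_mem (Finset.mem_univ _),
          Finset.card_univ, smul_eq_mul, Fintype.card_fin]
        ring
    _ ≤ _ := Finset.sum_le_sum fun v _ => Finset.sum_le_sum fun w hw =>
        lam_complete t v w (Finset.ne_of_mem_erase hw).symm

lemma avg10 : (3 : ℚ) ≤ avgEdgeConn (listGraph l10) := by
  classical
  refine le_avg (listGraph l10) 3 (by simp) ?_
  calc 3 * (Fintype.card (Fin 10) * (Fintype.card (Fin 10) - 1)) ≤ 272 := by simp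
    _ = ∑ v : Fin 10, ∑ w ∈ univ.erase v, min (wt v) (wt w) := sum_wt.symm
    _ ≤ _ := Finset.sum_le_sum fun v _ => Finset.sum_le_sum fun w hw =>
        lam10 v w (Finset.ne_of_mem_erase hw).symm

/-- The average edge-connectivity of a long path power. -/
lemma avg_path (t : ℕ) (ht : 3 ≤ t) :
    ((2 * t - 1 : ℕ) : ℚ) ≤ avgEdgeConn (pathPower (8 * t ^ 2 + 1) t) := by
  classical
  have htt : t ≤ t ^ 2 := by nlinarith
  set n := 8 * t ^ 2 + 1 with hn
  refine le_avg _ _ (by rw [Fintype.card_fin]; omega) ?_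
  let M : Finset (Fin n) := univ.filter fun x => t ≤ (x : ℕ) ∧ (x : ℕ) + t < n
  have hM : M.card = n - 2 * t := by
    have : M.map Fin.valEmbedding = Finset.Ico t (n - t) := by
      ext x
      simp only [M, Finset.mem_map, Finset.mem_filter, Finset.mem_univ, true_and,
        Fin.valEmbedding_apply, Finset.mem_Ico]
      constructor
      · rintro ⟨a, h, rfl⟩; omega
      · intro hx; exact ⟨⟨x, by omega⟩, by simp only; omega, rfl⟩
    rw [← Finset.card_map Fin.valEmbedding, this, Nat.card_Ico]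
    omega
  have h1 : ∑ v ∈ M, ∑ w ∈ M.erase v, 2 * t ≤
      ∑ v : Fin n, ∑ w ∈ univ.erase v, lam (pathPower n t) v w := by
    calc ∑ v ∈ M, ∑ w ∈ M.erase v, 2 * t
        ≤ ∑ v ∈ M, ∑ w ∈ univ.erase v, lam (pathPower n t) v w := by
          refine Finset.sum_le_sum fun v hv => ?_
          calc ∑ w ∈ M.erase v, 2 * t ≤ ∑ w ∈ M.erase v, lam (pathPower n t) v w := by
                refine Finset.sum_le_sum fun w hw => ?_
                obtain ⟨hwv, hwM⟩ := Finset.mem_erase.1 hw
                have h1 := (Finset.mem_filter.1 hv).2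
                have h2 := (Finset.mem_filter.1 hwM).2
                exact le_lam _ hwv.symm _ fun S hvS hwS =>
                  cut_middle ht S v w hvS hwS h1.1 h1.2 h2.1 h2.2
            _ ≤ _ := Finset.sum_le_sum_of_subset (Finset.erase_subset_erase _ (Finset.subset_univ _))
      _ ≤ _ := Finset.sum_le_sum_of_subset (Finset.subset_univ _)
  refine le_trans ?_ h1
  have h2 : ∑ v ∈ M, ∑ w ∈ M.erase v, 2 * t = (n - 2 * t) * ((n - 2 * t - 1) * (2 * t)) := by
    rw [Finset.sum_congr rfl (g := fun _ => (n - 2 * t - 1) * (2 * t))]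
    · rw [Finset.sum_const, hM, smul_eq_mul]
    · intro v hv
      rw [Finset.sum_const, Finset.card_erase_of_mem hv, hM, smul_eq_mul]
  rw [h2, Fintype.card_fin]
  obtain ⟨m, hm⟩ : ∃ m, n = m + 2 * t + 1 := ⟨n - 2 * t - 1, by omega⟩
  have e1 : n - 2 * t = m + 1 := by omega
  have e2 : n - 2 * t - 1 = m := by omega
  have e3 : n - 1 = m + 2 * t := by omega
  obtain ⟨s, hs⟩ : ∃ s, t = s + 1 := ⟨t - 1, by omega⟩
  have e4 : 2 * t - 1 = 2 * s + 1 := by omega
  rw [e2, e1, e3, e4, hm]
  have h3 : m + 2 * t + 1 = 8 * t ^ 2 + 1 := by rw [← hm]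
  have h4 : (m : ℤ) = 8 * t ^ 2 - 2 * t := by
    have : ((m + 2 * t + 1 : ℕ) : ℤ) = ((8 * t ^ 2 + 1 : ℕ) : ℤ) := by rw [h3]
    push_cast at this
    linarith
  have h5 : ((t : ℕ) : ℤ) = s + 1 := by rw [hs]; push_cast; ring
  have goal : ((((2 * s + 1) * ((m + 2 * t + 1) * (m + 2 * t)) : ℕ)) : ℤ) ≤
      (((m + 1) * (m * (2 * t)) : ℕ) : ℤ) := by
    push_cast
    rw [h4, h5]
    have hs0 : (0 : ℤ) ≤ s := by positivity
    nlinarith [mul_nonneg hs0 hs0, mul_nonneg (mul_nonneg hs0 hs0) hs0]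
  exact_mod_cast goal

/-- **The value of `f(l)`.**  For every positive integer `l`, the largest `t` such that every
graph with average edge-connectivity at least `l` contains a `t`-edge-connected subgraph is
`⌊l/2⌋ + 1`. -/
theorem result (l : ℕ) (hl : 1 ≤ l) : IsGreatest {t : ℕ | 1 ≤ t ∧ Forces l t} (l / 2 + 1) := by
  classical
  refine ⟨⟨by omega, forces l hl⟩, ?_⟩
  rintro t ⟨_, ht⟩
  by_contra hcon
  push Not at hcon
  rcases Nat.lt_or_ge l 4 with h4 | h4
  · interval_cases l
    · exact no_sub (t := 1) (pathPower 2 1) (fun v => pathPower_back v) (by omega)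
        (ht (Fin 2) (pathPower 2 1) (by simp) (avg_complete 1 le_rfl))
    · exact no_sub (t := 2) (pathPower 3 2) (fun v => pathPower_back v) (by omega)
        (ht (Fin 3) (pathPower 3 2) (by simp) (avg_complete 2 (by omega)))
    · exact no_sub (t := 2) (listGraph l10) back10 (by omega)
        (ht (Fin 10) (listGraph l10) (by simp) avg10)
  · have h3 : 3 ≤ l / 2 + 1 := by omega
    have htt : l / 2 + 1 ≤ (l / 2 + 1) ^ 2 := by nlinarith
    refine no_sub (t := l / 2 + 1) (pathPower (8 * (l / 2 + 1) ^ 2 + 1) (l / 2 + 1))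
      (fun v => pathPower_back v) hcon (ht _ _ (by rw [Fintype.card_fin]; omega) ?_)
    refine le_trans ?_ (avg_path (l / 2 + 1) h3)
    exact_mod_cast (show l ≤ 2 * (l / 2 + 1) - 1 by omega)

end Pool.Agent.Results.MP_3eb4be_co.AverageEdgeConn
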